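import Pool.Agent.Lib.MP_f8058f_co.Main

set_option autoImplicit false

namespace Pool.Agent.Results.MP_f8058f_co.MaxToughness

open Pool.Agent.Lib.MP_f8058f_co
open scoped ENNReal

/-- The maximum toughness of a minimally tough co-chordal graph of co-diameter `2` is `1/2`. -/
theorem result :
    IsGreatest {t : ℝ≥0∞ | ∃ (n : ℕ) (G : SimpleGraph (Fin n)),
      MinimallyTough G ∧ Chordal Gᶜ ∧ Gᶜ.Connected ∧ Gᶜ.diam = 2 ∧ toughness G = t} (1 / 2) := by
  refine ⟨⟨6, net, net_min, net_chordal, net_conn, net_diam, net_tough⟩, ?_⟩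
  rintro t ⟨n, G, h1, h2, h3, h4, rfl⟩
  exact toughness_le_half G h1 h2 h3 h4

end Pool.Agent.Results.MP_f8058f_co.MaxToughness
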